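import Mathlib
import Pool.Agent.MP_cb5fda_co.AA.Fin

set_option autoImplicit false

namespace Pool.Agent.Results.MP_cb5fda_co.AlmostAll

/-- The proportion of the labelled graphs `G` on `n` vertices all of whose chromatic roots `z`
satisfy `Re z ≤ Δ(G) - n / 1000` tends to one. -/
theorem result :
    Filter.Tendsto (fun n : ℕ => (Nat.card {G : SimpleGraph (Fin n) //
        ∀ [DecidableRel G.Adj] (P : Polynomial ℂ),
          (∀ k : ℕ, P.eval (k : ℂ) = (Nat.card (G.Coloring (Fin k)) : ℂ)) →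
          ∀ z : ℂ, P.eval z = 0 → z.re ≤ (G.maxDegree : ℝ) - (n : ℝ) / 1000} : ℝ) /
      2 ^ (n.choose 2)) Filter.atTop (nhds 1) :=
  Pool.Agent.MP_cb5fda_co.AA.mainS

end Pool.Agent.Results.MP_cb5fda_co.AlmostAll
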