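import Mathlib
import Pool.Agent.MP_cb5fda_co.h21.Deg7

set_option autoImplicit false

namespace Pool.Agent.Results.MP_cb5fda_co.Degeneracy

/-- For `i ≥ 1` and `δ > 0` there are `C`, `D₀` such that every chromatic root `z` of a
`k`-degenerate finite simple graph of maximum degree at most `D`, where `D ≥ D₀` and
`k ≤ D ^ (i / (i + 1) - δ)`, satisfies `|z| ≤ C D / log log … log D` (`i` logarithms). -/
theorem result :
    ∀ (i : ℕ) (δ : ℝ), 1 ≤ i → 0 < δ → ∃ C D₀ : ℝ,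
      ∀ (V : Type) [Fintype V] [DecidableEq V] (G : SimpleGraph V) [DecidableRel G.Adj]
        (P : Polynomial ℂ),
        (∀ n : ℕ, P.eval (n : ℂ) = (Nat.card (G.Coloring (Fin n)) : ℂ)) →
        ∀ k D : ℕ, D₀ ≤ (D : ℝ) → (k : ℝ) ≤ (D : ℝ) ^ ((i : ℝ) / ((i : ℝ) + 1) - δ) →
        G.maxDegree ≤ D →
        (∀ S : Finset V, S.Nonempty → ∃ v ∈ S, (G.neighborFinset v ∩ S).card ≤ k) →
        ∀ z : ℂ, P.eval z = 0 → ‖z‖ ≤ C * (D : ℝ) / Real.log^[i] (D : ℝ) := by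
  intro i δ hi hδ
  obtain ⟨j, rfl⟩ : ∃ j, i = j + 1 := ⟨i - 1, by omega⟩
  have hδ' : 0 < min δ (1 / 2) := lt_min hδ (by norm_num)
  obtain ⟨c, hc, D₀, h0⟩ := Pool.Agent.MP_cb5fda_co.Deg.numer j
    (δ := min δ (1 / 2) / ((j + 1 : ℕ) + 4)) (by positivity)
  refine ⟨24 / c, D₀, fun V _ _ G _ P hP k D hD hk hG h z hz => ?_⟩
  obtain ⟨d1, d2, d3⟩ := h0 D hD
  refine Pool.Agent.MP_cb5fda_co.Deg.main2 G (k := max k 1) (le_max_right _ _) hc d2 hδ'
    (by exact_mod_cast d1) ?_ d3 (fun S hS => ?_) (fun v => ?_) hP hz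
  · push_cast at hk ⊢
    refine max_le (hk.trans (Real.rpow_le_rpow_of_exponent_le d1.le
      (sub_le_sub_left (min_le_left _ _) _))) (Real.one_le_rpow d1.le (sub_nonneg.2
        ((min_le_right _ _).trans ?_)))
    rw [le_div_iff₀ (by positivity)]
    have : (0 : ℝ) ≤ j := Nat.cast_nonneg j
    linarith
  · obtain ⟨v, hv, h1⟩ := h S hS
    refine ⟨v, hv, le_trans (Finset.card_le_card fun u hu => ?_) (h1.trans (le_max_left _ _))⟩
    simpa [and_comm] using hu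
  · refine le_trans (Finset.card_le_card fun u hu => ?_) ((G.degree_le_maxDegree v).trans hG)
    simpa using hu

end Pool.Agent.Results.MP_cb5fda_co.Degeneracy
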