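import Mathlib
import Pool.Agent.MP_cb5fda_co.Disc4

set_option autoImplicit false

namespace Pool.Agent.Results.MP_cb5fda_co.DiscBound

open Pool.Agent.MP_cb5fda_co

/-- Every chromatic root `z` of a finite simple graph of maximum degree at most `D`, `D ≥ 2`,
satisfies `|z| < 3.33 D - 1.33`. -/
theorem result :
    ∀ (V : Type) [Fintype V] [DecidableEq V] (G : SimpleGraph V) [DecidableRel G.Adj]
      (P : Polynomial ℂ),
      (∀ n : ℕ, P.eval (n : ℂ) = (Nat.card (G.Coloring (Fin n)) : ℂ)) →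
      ∀ D : ℕ, 2 ≤ D → G.maxDegree ≤ D →
      ∀ z : ℂ, P.eval z = 0 → ‖z‖ < (333 / 100 : ℝ) * D - 133 / 100 := by
  intro V _ _ G _ P hP D hD hG z hz
  by_contra h
  rw [ch_univ G P hP] at hz
  refine Disc.ch_ne_zero hD hG ?_ hz
  have := not_lt.1 h
  linarith

end Pool.Agent.Results.MP_cb5fda_co.DiscBound
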