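import Mathlib
import Pool.Agent.MP_cb5fda_co.Order3

set_option autoImplicit false

namespace Pool.Agent.Results.MP_cb5fda_co.OrderBound

open Pool.Agent.MP_cb5fda_co

/-- Every chromatic root `z` of a finite simple graph on `n` vertices satisfies
`Re z ≤ max (n - 3) (max (deg u) (deg v))` for any two distinct vertices `u`, `v`. -/
theorem result :
    ∀ (V : Type) [Fintype V] [DecidableEq V] (G : SimpleGraph V) [DecidableRel G.Adj]
      (P : Polynomial ℂ),
      (∀ n : ℕ, P.eval (n : ℂ) = (Nat.card (G.Coloring (Fin n)) : ℂ)) →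
      ∀ z : ℂ, P.eval z = 0 → ∀ u v : V, u ≠ v →
        z.re ≤ max ((Fintype.card V : ℝ) - 3) (max (G.degree u : ℝ) (G.degree v : ℝ)) := by
  intro V _ _ G _ P hP z hz u v huv
  by_contra h
  simp only [not_le, max_lt_iff] at h
  rw [ch_univ G P hP] at hz
  refine ne_zero_two G ?_ (Finset.mem_univ u) (Finset.mem_univ v) huv ?_ ?_ hz
  · simpa using h.1
  · rw [card_nb_univ]; exact h.2.1
  · rw [card_nb_univ]; exact h.2.2

end Pool.Agent.Results.MP_cb5fda_co.OrderBound
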